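import Pool.Agent.Helper91.CX.Stm2

/-!
Removable sets do not disconnect; transitivity.
-/

set_option autoImplicit false

namespace Pool.Agent.Helper70.CX

open Metric Set Topology Filter Pool.Agent.Helper91.CX
open scoped Manifold ContDiff

variable {n : ℕ} {X : Type} [TopologicalSpace X]

/-- points of a set which accumulate at `x`, in coordinates -/
theorem freq (φ : Ch n X) {x : X} (hx : x ∈ φ.source) {O : Set X} (h : x ∈ closure O) :
    ∃ᶠ y in 𝓝 (φ x), φ.symm y ∈ O := by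
  have h1 : ∃ᶠ z in 𝓝 x, z ∈ O := mem_closure_iff_frequently.1 h
  have h2 : ∀ᶠ z in 𝓝 x, z ∈ φ.source := φ.open_source.mem_nhds hx
  have h3 : ∃ᶠ z in 𝓝 x, φ.symm (φ z) ∈ O := by
    refine (h1.and_eventually h2).mono ?_
    rintro z ⟨h4, h5⟩
    rw [φ.left_inv h5]; exact h4
  exact (φ.continuousAt hx).frequently h3

/-- two continuous functions which agree frequently near a point agree at it -/
theorem eq_of_freq {α β : Type*} [TopologicalSpace α] [TopologicalSpace β] [T2Space β]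
    {f g : α → β} {z : α} (hf : ContinuousAt f z) (hg : ContinuousAt g z)
    (h : ∃ᶠ y in 𝓝 z, f y = g y) : f z = g z :=
  tendsto_nhds_unique_of_frequently_eq hf hg h

/-- the part of `W` over an open set is open -/
theorem opn {φ : Ch n X} {M : Set X} {W : Set (Fin n → ℂ)} (hW : Dom φ M W) {O : Set X}
    (hO : IsOpen O) : IsOpen (W ∩ φ.symm ⁻¹' O) := by
  have h1 : IsOpen (φ.target ∩ φ.symm ⁻¹' O) :=
    φ.continuousOn_symm.isOpen_inter_preimage φ.open_target hO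
  have h2 : W ∩ φ.symm ⁻¹' O = W ∩ (φ.target ∩ φ.symm ⁻¹' O) := by
    ext y
    constructor
    · rintro ⟨ha, hb⟩; exact ⟨ha, hW.2.1 ha, hb⟩
    · rintro ⟨ha, _, hb⟩; exact ⟨ha, hb⟩
  rw [h2]
  exact hW.1.inter h1

theorem dom_whole (φ : Ch n X) {M : Set X} (hM : IsOpen M) :
    Dom φ M (φ.target ∩ φ.symm ⁻¹' M) :=
  ⟨φ.continuousOn_symm.isOpen_inter_preimage φ.open_target hM, inter_subset_left,
    fun _ hy => hy.2⟩

variable [ChartedSpace (Fin n → ℂ) X]

theorem conn1 [IsManifold 𝓘(ℂ, Fin n → ℂ) ω X] (M M' : Set X) (hM : IsOpen M) (hM' : IsOpen M')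
    (_hsub : M' ⊆ M) (hcl : M ⊆ closure M') (hrem : Rem n M' M) (hc : IsPreconnected M) :
    IsPreconnected M' := by
  classical
  intro u v hu hv huv hne1 hne2
  by_contra hcon
  have hdis : ∀ z ∈ M', z ∈ u → z ∈ v → False := fun z h1 h2 h3 => hcon ⟨z, h1, h2, h3⟩
  -- no common boundary points
  have key : ∀ x ∈ M, x ∈ closure (M' ∩ u) → x ∈ closure (M' ∩ v) → False := by
    intro x hx h1 h2
    set φ : Ch n X := chartAt (Fin n → ℂ) x with hφ
    have hφc : φ ∈ Charts n X := IsManifold.chart_mem_maximalAtlas x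
    have hxs : x ∈ φ.source := mem_chart_source _ x
    set W : Set (Fin n → ℂ) := φ.target ∩ φ.symm ⁻¹' M with hWd
    have hW : Dom φ M W := dom_whole φ hM
    have hxW : φ x ∈ W := ⟨φ.map_source hxs, by simpa [φ.left_inv hxs] using hx⟩
    let g : (Fin n → ℂ) → ℂ := fun y => if φ.symm y ∈ u then 0 else 1
    have hg : DifferentiableOn ℂ g (W ∩ φ.symm ⁻¹' M') := by
      intro y hy
      rcases huv hy.2 with h3 | h3
      · have h4 : W ∩ φ.symm ⁻¹' u ∈ 𝓝 y := (opn hW hu).mem_nhds ⟨hy.1, h3⟩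
        have h5 : g =ᶠ[𝓝 y] fun _ => (0 : ℂ) := by
          filter_upwards [h4] with w hw
          exact if_pos hw.2
        exact ((differentiableAt_const _).congr_of_eventuallyEq h5).differentiableWithinAt
      · have h4 : W ∩ φ.symm ⁻¹' (M' ∩ v) ∈ 𝓝 y :=
          (opn hW (hM'.inter hv)).mem_nhds ⟨hy.1, hy.2, h3⟩
        have h5 : g =ᶠ[𝓝 y] fun _ => (1 : ℂ) := by
          filter_upwards [h4] with w hw
          exact if_neg fun h6 => hdis _ hw.2.1 h6 hw.2.2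
        exact ((differentiableAt_const _).congr_of_eventuallyEq h5).differentiableWithinAt
    obtain ⟨W', g', hW'o, _, hxW', hg', heq⟩ := hrem φ hφc x hxs hx W hW hxW g hg
    have hcont : ContinuousAt g' (φ x) :=
      (hg'.differentiableAt (hW'o.mem_nhds hxW')).continuousAt
    have hmem : ∀ᶠ y in 𝓝 (φ x), y ∈ W' := hW'o.mem_nhds hxW'
    have e0 : g' (φ x) = 0 := by
      refine eq_of_freq hcont continuousAt_const ?_
      refine ((freq φ hxs h1).and_eventually hmem).mono ?_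
      rintro y ⟨h6, h7⟩
      rw [heq y h7 h6.1]
      exact if_pos h6.2
    have e1 : g' (φ x) = 1 := by
      refine eq_of_freq hcont continuousAt_const ?_
      refine ((freq φ hxs h2).and_eventually hmem).mono ?_
      rintro y ⟨h6, h7⟩
      rw [heq y h7 h6.1]
      exact if_neg fun h8 => hdis _ h6.1 h8 h6.2
    exact zero_ne_one (e0.symm.trans e1)
  -- the separation of `M`
  have hsep : (M ∩ ((closure (M' ∩ v))ᶜ ∩ (closure (M' ∩ u))ᶜ)).Nonempty := by
    refine hc _ _ isClosed_closure.isOpen_compl isClosed_closure.isOpen_compl ?_ ?_ ?_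
    · intro x hx
      by_cases h1 : x ∈ closure (M' ∩ v)
      · exact Or.inr fun h2 => key x hx h2 h1
      · exact Or.inl h1
    · obtain ⟨z, hz1, hz2⟩ := hne1
      refine ⟨z, _hsub hz1, fun h => ?_⟩
      obtain ⟨w, hw1, hw2⟩ := mem_closure_iff.1 h (M' ∩ u) (hM'.inter hu) ⟨hz1, hz2⟩
      exact hdis w hw1.1 hw1.2 hw2.2
    · obtain ⟨z, hz1, hz2⟩ := hne2
      refine ⟨z, _hsub hz1, fun h => ?_⟩
      obtain ⟨w, hw1, hw2⟩ := mem_closure_iff.1 h (M' ∩ v) (hM'.inter hv) ⟨hz1, hz2⟩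
      exact hdis w hw1.1 hw2.2 hw1.2
  obtain ⟨x, hxM, h1, h2⟩ := hsep
  have h3 : x ∈ closure (M' ∩ u ∪ M' ∩ v) := by
    refine closure_mono ?_ (hcl hxM)
    intro z hz
    rcases huv hz with h4 | h4
    · exact Or.inl ⟨hz, h4⟩
    · exact Or.inr ⟨hz, h4⟩
  rw [closure_union] at h3
  rcases h3 with h4 | h4
  · exact h2 h4
  · exact h1 h4

theorem conn2 (M M' M'' : Set X) (_hM : IsOpen M) (hM' : IsOpen M') (_hM'' : IsOpen M'')
    (h21 : M'' ⊆ M') (_h10 : M' ⊆ M) (_hc1 : M ⊆ closure M') (hc2 : M' ⊆ closure M'')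
    (hr2 : Rem n M'' M') (hr1 : Rem n M' M) : Rem n M'' M := by
  classical
  intro φ hφ x hxs hx W hW hxW g hg
  set W₁ : Set (Fin n → ℂ) := W ∩ φ.symm ⁻¹' M' with hW₁
  have hW₁o : IsOpen W₁ := opn hW hM'
  have hD₁ : Dom φ M' W₁ := ⟨hW₁o, fun y hy => hW.2.1 hy.1, fun y hy => hy.2⟩
  have hg₁ : DifferentiableOn ℂ g (W₁ ∩ φ.symm ⁻¹' M'') :=
    hg.mono fun y hy => ⟨hy.1.1, hy.2⟩
  have hloc : ∀ y ∈ W₁, ∃ (W' : Set (Fin n → ℂ)) (g' : (Fin n → ℂ) → ℂ), IsOpen W' ∧ W' ⊆ W₁ ∧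
      y ∈ W' ∧ DifferentiableOn ℂ g' W' ∧ ∀ z ∈ W', φ.symm z ∈ M'' → g' z = g z := by
    intro y hy
    have hyt : y ∈ φ.target := hW.2.1 hy.1
    have h1 := hr2 φ hφ (φ.symm y) (φ.map_target hyt) hy.2 W₁ hD₁
      (by rw [φ.right_inv hyt]; exact hy) g hg₁
    rw [φ.right_inv hyt] at h1
    exact h1
  choose! N e hNo hNs hNy hed heq using hloc
  let G : (Fin n → ℂ) → ℂ := fun y => e y y
  have hGe : ∀ y ∈ W₁, ∀ z ∈ N y, G z = e y z := by
    intro y hy z hz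
    have hz₁ : z ∈ W₁ := hNs y hy hz
    have hzt : z ∈ φ.target := hW.2.1 hz₁.1
    have c1 : ContinuousAt (e z) z :=
      ((hed z hz₁).differentiableAt ((hNo z hz₁).mem_nhds (hNy z hz₁))).continuousAt
    have c2 : ContinuousAt (e y) z :=
      ((hed y hy).differentiableAt ((hNo y hy).mem_nhds hz)).continuousAt
    refine eq_of_freq (f := e z) (g := e y) c1 c2 ?_
    have h1 : ∃ᶠ w in 𝓝 z, φ.symm w ∈ M'' := by
      have h2 := freq φ (φ.map_target hzt) (hc2 hz₁.2)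
      rwa [φ.right_inv hzt] at h2
    have h3a : ∀ᶠ w in 𝓝 z, w ∈ N z := (hNo z hz₁).mem_nhds (hNy z hz₁)
    have h3b : ∀ᶠ w in 𝓝 z, w ∈ N y := (hNo y hy).mem_nhds hz
    have h3 : ∀ᶠ w in 𝓝 z, w ∈ N z ∧ w ∈ N y := h3a.and h3b
    refine (h1.and_eventually h3).mono ?_
    rintro w ⟨h4, h5, h6⟩
    rw [heq z hz₁ w h5 h4, heq y hy w h6 h4]
  have hGd : DifferentiableOn ℂ G (W ∩ φ.symm ⁻¹' M') := by
    intro y hy
    have h1 : G =ᶠ[𝓝 y] e y := by
      filter_upwards [(hNo y hy).mem_nhds (hNy y hy)] with w hw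
      exact hGe y hy w hw
    exact (((hed y hy).differentiableAt ((hNo y hy).mem_nhds (hNy y hy))).congr_of_eventuallyEq
      h1).differentiableWithinAt
  obtain ⟨W', g', h1, h2, h3, h4, h5⟩ := hr1 φ hφ x hxs hx W hW hxW G hGd
  refine ⟨W', g', h1, h2, h3, h4, fun y hy hyM => ?_⟩
  rw [h5 y hy (h21 hyM)]
  have hy₁ : y ∈ W₁ := ⟨h2 hy, h21 hyM⟩
  exact heq y hy₁ y (hNy y hy₁) hyM

/-- Q5 -/
theorem conn (n : ℕ) (X : Type) [TopologicalSpace X] [ChartedSpace (Fin n → ℂ) X]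
    [IsManifold 𝓘(ℂ, Fin n → ℂ) ω X] : S_Conn n X :=
  ⟨fun M M' => conn1 M M', fun M M' M'' => conn2 M M' M''⟩

end Pool.Agent.Helper70.CX
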