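import Pool.Agent.Helper91.CX.Stm2

/-!
A criterion for removable complements.
-/

set_option autoImplicit false

namespace Pool.Agent.Helper70.CX

open Metric Set Topology Filter Pool.Agent.Helper91.CX
open scoped Manifold ContDiff

theorem extAt_of_indep {n m k : ℕ} {V : (Fin n → ℂ) → Fin k → Fin m → ℂ} {W : Set (Fin n → ℂ)}
    (hW : IsOpen W) (hV : Hol W V) {w : Fin n → ℂ} (hw : w ∈ W)
    (hi : LinearIndependent ℂ (V w)) : ExtAt V w := by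
  have hc : ContinuousOn V W := by
    refine continuousOn_pi.2 fun i => continuousOn_pi.2 fun j => ?_
    exact (hV i j).continuousOn
  have ho : IsOpen (W ∩ V ⁻¹' {f | LinearIndependent ℂ f}) :=
    hc.isOpen_inter_preimage hW isOpen_setOfPred_linearIndependent
  refine ⟨W ∩ V ⁻¹' {f | LinearIndependent ℂ f}, ho, ⟨hw, hi⟩, V, fun i j => ?_, fun w' hw' => hw'.2,
    fun w' _ _ => rfl⟩
  exact (hV i j).mono inter_subset_left

/-- Q8 -/
theorem remOf (hExt : S_Ext) (hRem : S_Rem) (n : ℕ) (X : Type) [TopologicalSpace X]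
    [ChartedSpace (Fin n → ℂ) X] [IsManifold 𝓘(ℂ, Fin n → ℂ) ω X] : S_RemOf n X := by
  intro M M' _hM hM' _hsub hloc φ hφ x hxs hx W₀ hW₀ hxW₀ g hg
  obtain ⟨τ, hτ, k, W, V, hW, hxW, hV, hfr, hcrit⟩ := hloc φ hφ x hxs hx
  have hU : IsOpen (W ∩ W₀) := hW.1.inter hW₀.1
  obtain ⟨v, r, δ, hr, hδ, hball, hcirc, Z, hZ, hZcl, hZe⟩ :=
    hExt n n τ k V (W ∩ W₀) (φ x) hU ⟨hxW, hxW₀⟩
      (fun t i j => (hV t i j).mono inter_subset_left) hfr
  have hopen : IsOpen ((W ∩ W₀) ∩ φ.symm ⁻¹' M') := by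
    have h1 : IsOpen (φ.target ∩ φ.symm ⁻¹' M') :=
      φ.continuousOn_symm.isOpen_inter_preimage φ.open_target hM'
    have h2 : (W ∩ W₀) ∩ φ.symm ⁻¹' M' = (W ∩ W₀) ∩ (φ.target ∩ φ.symm ⁻¹' M') := by
      ext y
      constructor
      · rintro ⟨ha, hb⟩; exact ⟨ha, hW.2.1 ha.1, hb⟩
      · rintro ⟨ha, _, hb⟩; exact ⟨ha, hb⟩
    rw [h2]
    exact hU.inter h1
  obtain ⟨g', hg', heq⟩ := hRem n (φ x) v r δ g ((W ∩ W₀) ∩ φ.symm ⁻¹' M') Z hr hδ hopen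
    (hg.mono fun y hy => ⟨hy.1.2, hy.2⟩)
    (fun z hz ζ hζ => ⟨hball z hz ζ hζ.le, hcrit _ (hball z hz ζ hζ.le).1 fun t =>
      extAt_of_indep hW.1 (hV t) (hball z hz ζ hζ.le).1 (hcirc z hz ζ hζ t)⟩)
    hZcl
    (fun z hz ζ hζ => ⟨hball z (hZ hz) ζ hζ, hcrit _ (hball z (hZ hz) ζ hζ).1 fun t =>
      hZe z hz ζ hζ t⟩)
  have hsub : ball (φ x) δ ⊆ W ∩ W₀ := by
    intro z hz
    have h1 := hball z hz 0 (by rw [norm_zero]; exact hr.le)
    rwa [zero_smul, add_zero] at h1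
  exact ⟨ball (φ x) δ, g', isOpen_ball, fun z hz => (hsub hz).2, mem_ball_self hδ, hg',
    fun y hy hyM => heq y ⟨⟨hsub hy, hyM⟩, hy⟩⟩

end Pool.Agent.Helper70.CX
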